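import Pool.Agent.REL.NUI.CR
import Pool.Agent.REL.NUI.Fin2
import Pool.Agent.REL.NUNC.RingLe
import Pool.Agent.REL.ZF.HexP1
import Pool.Agent.REL.TH.LLnu
import Pool.Agent.REL.NUN.Strip
import Pool.Agent.REL.NUF.FDefsU
import Pool.Agent.REL.PLD.P1
set_option linter.all false

/- part: Pool.Agent.NUA.ChainT -/
section
/-!
# The chain at a general loop weight `2 cos θ`

As `NUI.chain`, with the three circles centred at `i θ`.
-/

open Complex Set Filter Topology Polynomial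

namespace NUA

open NUI

/-- **The chain at `θ`.** -/
theorem chainT {c R δ θ : ℝ} (hc : 0 < c) (hR : Real.pi / 2 < R) (hδ : 0 < δ) (h0 : 0 ≤ θ)
    (h1 : θ < Real.pi / 2) :
    ∃ ε > 0, ∀ a : ℝ, ∀ L > 0, ∀ P : ℝ[X], (∀ i, 0 ≤ P.coeff i) →
      (∀ b : ℂ, ‖b‖ ≤ R → ‖aeval (2 * Complex.cosh b) P‖ ≤
        Real.exp (L * (a + c * (b ^ 2).re + ε))) →
      Real.exp (L * (a - c * (Real.pi ^ 2 / 4) - ε)) ≤ P.eval 0 →
      Real.exp (L * (a - c * θ ^ 2 - δ)) ≤ P.eval (2 * Real.cos θ) := by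
  have hpi := Real.pi_gt_three
  have hRp : 0 < R := by linarith
  have hcos : 0 < Real.cos θ := Real.cos_pos_of_mem_Ioo ⟨by linarith, h1⟩
  have hcos1 : Real.cos θ ≤ 1 := Real.cos_le_one θ
  -- choice of t, r0
  obtain ⟨t, ht0, ht1, htδ⟩ : ∃ t : ℝ, 0 < t ∧ t ≤ 1 ∧ t * (δ + c * θ ^ 2 + c * R ^ 2 + 1) ≤ δ / 4 := by
    refine ⟨min 1 (δ / 4 / (δ + c * θ ^ 2 + c * R ^ 2 + 1)), ?_, min_le_left _ _, ?_⟩
    · apply lt_min (by norm_num)
      positivity
    · calc min 1 (δ / 4 / (δ + c * θ ^ 2 + c * R ^ 2 + 1)) * (δ + c * θ ^ 2 + c * R ^ 2 + 1)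
          ≤ (δ / 4 / (δ + c * θ ^ 2 + c * R ^ 2 + 1)) * (δ + c * θ ^ 2 + c * R ^ 2 + 1) := by
            apply mul_le_mul_of_nonneg_right (min_le_right _ _)
            positivity
        _ = δ / 4 := by field_simp
  have hch : 1 < Real.cosh R := cosh_gt_one hRp.ne'
  have hx1 : 0 < 2 * Real.cos θ := by positivity
  have hy1 : 2 * Real.cos θ < 2 * Real.cosh R := by linarith
  have hmix : 2 * Real.cos θ < (2 * Real.cos θ) ^ (1 - t) * (2 * Real.cosh R) ^ t := by
    have h2 : (2 * Real.cos θ) ^ t < (2 * Real.cosh R) ^ t := Real.rpow_lt_rpow hx1.le hy1 ht0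
    calc 2 * Real.cos θ = (2 * Real.cos θ) ^ (1 - t) * (2 * Real.cos θ) ^ t := by
          rw [← Real.rpow_add hx1]
          have : (1 - t + t) = 1 := by ring
          rw [this, Real.rpow_one]
      _ < _ := mul_lt_mul_of_pos_left h2 (Real.rpow_pos_of_pos hx1 _)
  obtain ⟨r0, hr0, hr0R, hr0c, hr0δ⟩ : ∃ r0 : ℝ, 0 < r0 ∧ r0 < Real.pi / 2 - θ ∧
      (∀ z : ℂ, ‖z‖ = r0 → ‖2 * Complex.cosh (θ * I + z)‖ ≤
        (2 * Real.cos θ) ^ (1 - t) * (2 * Real.cosh R) ^ t) ∧ c * (r0 ^ 2 + 2 * θ * r0) ≤ δ / 4 := by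
    have g1 : ∀ᶠ z in 𝓝 (0 : ℂ), ‖2 * Complex.cosh (θ * I + z)‖ <
        (2 * Real.cos θ) ^ (1 - t) * (2 * Real.cosh R) ^ t := by
      have hcont : Continuous (fun z : ℂ => ‖2 * Complex.cosh (θ * I + z)‖) := by
        have := Complex.continuous_cosh
        fun_prop
      have := hcont.tendsto 0
      rw [add_zero, Complex.cosh_mul_I, ← Complex.ofReal_cos] at this
      have e : ‖2 * ((Real.cos θ : ℝ) : ℂ)‖ = 2 * Real.cos θ := by
        rw [norm_mul, Complex.norm_real, Real.norm_of_nonneg hcos.le]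
        norm_num
      rw [e] at this
      exact this.eventually_lt_const hmix
    obtain ⟨r1, hr1, hr1b⟩ := Metric.eventually_nhds_iff.1 g1
    have g2 : ∀ᶠ r in 𝓝 (0 : ℝ), c * (r ^ 2 + 2 * θ * r) < δ / 4 := by
      have : Tendsto (fun r : ℝ => c * (r ^ 2 + 2 * θ * r)) (𝓝 0) (𝓝 (c * (0 ^ 2 + 2 * θ * 0))) :=
        (by fun_prop : Continuous (fun r : ℝ => c * (r ^ 2 + 2 * θ * r))).continuousAt
      rw [show c * ((0 : ℝ) ^ 2 + 2 * θ * 0) = 0 by ring] at this
      exact this.eventually_lt_const (by positivity)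
    have g3 : ∀ᶠ r in 𝓝 (0 : ℝ), r < Real.pi / 2 - θ := eventually_lt_nhds (by linarith)
    have g4 : ∀ᶠ r in 𝓝 (0 : ℝ), r < r1 := eventually_lt_nhds hr1
    have h4 := (g2.and (g3.and g4)).filter_mono (nhdsWithin_le_nhds (s := Ioi 0))
    obtain ⟨r, ⟨ha, hb, hc'⟩, hr⟩ := (h4.and self_mem_nhdsWithin).exists
    refine ⟨r, hr, hb, fun z hz => ?_, ha.le⟩
    refine (hr1b ?_).le
    rw [dist_zero_right, hz]
    exact hc'
  -- the radii
  obtain ⟨R1, hR1⟩ : ∃ R1 : ℝ, R1 = R - θ := ⟨_, rfl⟩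
  have hρ : 0 < Real.pi / 2 - θ := by linarith
  have hρR : Real.pi / 2 - θ < R1 := by linarith
  set τ := (Real.log (Real.pi / 2 - θ) - Real.log r0) / (Real.log R1 - Real.log r0) with hτ
  have hl1 : Real.log r0 < Real.log (Real.pi / 2 - θ) := Real.log_lt_log hr0 hr0R
  have hl2 : Real.log (Real.pi / 2 - θ) < Real.log R1 := Real.log_lt_log hρ hρR
  have hτ0 : 0 < τ := div_pos (by linarith) (by linarith)
  have hτ1 : τ < 1 := by
    rw [hτ, div_lt_one (by linarith)]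
    linarith
  set ε := min 1 ((1 - τ) * δ / 8) with hε
  have hεp : 0 < ε := lt_min one_pos (by
    have : 0 < 1 - τ := by linarith
    positivity)
  have hε1 : ε ≤ 1 := min_le_left _ _
  have hε2 : ε ≤ (1 - τ) * δ / 8 := min_le_right _ _
  refine ⟨ε, hεp, ?_⟩
  intro a L hL P hP hup hlow
  by_contra hcon
  push Not at hcon
  -- bound at 2 cosh R
  have hbR : P.eval (2 * Real.cosh R) ≤ Real.exp (L * (a + c * R ^ 2 + ε)) := by
    have h1 := hup (R : ℂ) (by rw [norm_real, Real.norm_of_nonneg hRp.le])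
    have h2 : aeval (2 * Complex.cosh (R : ℂ)) P = ((P.eval (2 * Real.cosh R) : ℝ) : ℂ) := by
      rw [← Complex.ofReal_cosh]
      have : (2 : ℂ) * ((Real.cosh R : ℝ) : ℂ) = ((2 * Real.cosh R : ℝ) : ℂ) := by push_cast; ring
      rw [this]
      simpa using (Polynomial.aeval_algebraMap_apply ℂ (2 * Real.cosh R) P)
    rw [h2, norm_real, Real.norm_of_nonneg (eval_nonneg' hP (by positivity))] at h1
    have h3 : (((R : ℂ)) ^ 2).re = R ^ 2 := by
      rw [← ofReal_pow, ofReal_re]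
    rwa [h3] at h1
  have hP2 : 0 ≤ P.eval (2 * Real.cos θ) := eval_nonneg' hP hx1.le
  have hPR : 0 ≤ P.eval (2 * Real.cosh R) := eval_nonneg' hP (by positivity)
  -- the function g
  set g : ℂ → ℂ := fun z => aeval (2 * Complex.cosh (θ * I + z)) P *
    exp (-(L * (a + c * (θ * I + z) ^ 2))) with hg
  have hgd : Differentiable ℂ g := by
    have h1 : Differentiable ℂ (fun z : ℂ => aeval (2 * Complex.cosh (θ * I + z)) P) := by
      have h2 : (fun z : ℂ => aeval (2 * Complex.cosh (θ * I + z)) P)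
          = (fun x : ℂ => (P.map (algebraMap ℝ ℂ)).eval x) ∘ (fun z => 2 * Complex.cosh (θ * I + z)) := by
        funext b
        simp [Polynomial.aeval_def, Polynomial.eval_map]
      rw [h2]
      refine (Polynomial.differentiable _).comp ?_
      have h3 : Differentiable ℂ (fun z : ℂ => Complex.cosh (θ * I + z)) :=
        Complex.differentiable_cosh.comp (by fun_prop)
      exact h3.const_mul 2
    apply h1.mul
    fun_prop
  have hgn : ∀ z : ℂ, ‖g z‖ = ‖aeval (2 * Complex.cosh (θ * I + z)) P‖ *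
      Real.exp (-(L * (a + c * ((θ * I + z) ^ 2).re))) := by
    intro b
    rw [hg]
    simp only [norm_mul, norm_exp]
    congr 2
    simp
  have hre : ∀ z : ℂ, ((θ * I + z) ^ 2).re = -θ ^ 2 + (z ^ 2 + 2 * θ * I * z).re := by
    intro z
    have e : ((θ : ℂ) * I + z) ^ 2 = -(θ : ℂ) ^ 2 + (z ^ 2 + 2 * θ * I * z) := by
      have := I_sq
      linear_combination (θ : ℂ) ^ 2 * this
    rw [e, Complex.add_re, Complex.neg_re, ← Complex.ofReal_pow, Complex.ofReal_re]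
  have hA : ∀ z : ℂ, ‖z‖ = r0 → ‖g z‖ ≤ Real.exp (L * (-(δ / 2))) := by
    intro z hb
    rw [hgn]
    have h1 : ‖aeval (2 * Complex.cosh (θ * I + z)) P‖ ≤
        (P.eval (2 * Real.cos θ)) ^ (1 - t) * (P.eval (2 * Real.cosh R)) ^ t := by
      refine (aeval_norm_le hP _).trans ?_
      refine (eval_pos_le hP (norm_nonneg _) (hr0c z hb)).trans ?_
      exact log_convex hP hx1 (by positivity) ht0.le ht1
    have h2 : (P.eval (2 * Real.cos θ)) ^ (1 - t) ≤ Real.exp (L * (a - c * θ ^ 2 - δ)) ^ (1 - t) :=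
      Real.rpow_le_rpow hP2 hcon.le (by linarith)
    have h3 : (P.eval (2 * Real.cosh R)) ^ t ≤ Real.exp (L * (a + c * R ^ 2 + ε)) ^ t :=
      Real.rpow_le_rpow hPR hbR ht0.le
    have h4 : -(r0 ^ 2 + 2 * θ * r0) ≤ (z ^ 2 + 2 * θ * I * z).re := by
      have h5 : |(z ^ 2 + 2 * θ * I * z).re| ≤ ‖z ^ 2 + 2 * θ * I * z‖ := Complex.abs_re_le_norm _
      have h6 : ‖z ^ 2 + 2 * θ * I * z‖ ≤ r0 ^ 2 + 2 * θ * r0 := by
        refine (norm_add_le _ _).trans (le_of_eq ?_)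
        rw [norm_pow, norm_mul, norm_mul, norm_mul, norm_I, hb, norm_real, Real.norm_of_nonneg h0]
        norm_num
      exact (abs_le.mp (h5.trans h6)).1
    calc ‖aeval (2 * Complex.cosh (θ * I + z)) P‖ * Real.exp (-(L * (a + c * ((θ * I + z) ^ 2).re)))
        ≤ (Real.exp (L * (a - c * θ ^ 2 - δ)) ^ (1 - t) * Real.exp (L * (a + c * R ^ 2 + ε)) ^ t) *
          Real.exp (-(L * (a + c * ((θ * I + z) ^ 2).re))) := by
          apply mul_le_mul_of_nonneg_right _ (Real.exp_pos _).le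
          exact h1.trans (mul_le_mul h2 h3 (by positivity) (by positivity))
      _ = Real.exp (L * (a - c * θ ^ 2 - δ) * (1 - t) + L * (a + c * R ^ 2 + ε) * t
            - L * (a + c * ((θ * I + z) ^ 2).re)) := by
          rw [← Real.exp_mul, ← Real.exp_mul, ← Real.exp_add, ← Real.exp_add]
          congr 1
      _ ≤ Real.exp (L * (-(δ / 2))) := by
          apply Real.exp_le_exp.mpr
          rw [hre]
          have h6 : L * (a - c * θ ^ 2 - δ) * (1 - t) + L * (a + c * R ^ 2 + ε) * t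
            - L * (a + c * (-θ ^ 2 + (z ^ 2 + 2 * θ * I * z).re)) =
              L * (-δ + t * (δ + c * θ ^ 2 + c * R ^ 2 + ε) - c * (z ^ 2 + 2 * θ * I * z).re) := by
            ring
          rw [h6]
          apply mul_le_mul_of_nonneg_left _ hL.le
          have h7 : t * (δ + c * θ ^ 2 + c * R ^ 2 + ε) ≤ t * (δ + c * θ ^ 2 + c * R ^ 2 + 1) := by
            apply mul_le_mul_of_nonneg_left _ ht0.le
            linarith
          have h8 : -(c * (z ^ 2 + 2 * θ * I * z).re) ≤ c * (r0 ^ 2 + 2 * θ * r0) := by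
            have := mul_le_mul_of_nonneg_left h4 hc.le
            linarith
          linarith
  have hB : ∀ z : ℂ, ‖z‖ = R1 → ‖g z‖ ≤ Real.exp (L * ε) := by
    intro z hb
    rw [hgn]
    have hn : ‖(θ : ℂ) * I + z‖ ≤ R := by
      refine (norm_add_le _ _).trans ?_
      rw [norm_mul, norm_I, mul_one, norm_real, Real.norm_of_nonneg h0, hb, hR1]
      linarith
    calc _ ≤ Real.exp (L * (a + c * ((θ * I + z) ^ 2).re + ε)) *
            Real.exp (-(L * (a + c * ((θ * I + z) ^ 2).re))) := by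
          apply mul_le_mul_of_nonneg_right (hup _ hn) (Real.exp_pos _).le
      _ = Real.exp (L * ε) := by
          rw [← Real.exp_add]; congr 1; ring
  set z : ℂ := (Real.pi / 2 - θ : ℝ) * I with hz
  have hzn : ‖z‖ = Real.pi / 2 - θ := by
    rw [hz, norm_mul, norm_I, mul_one, norm_real, Real.norm_of_nonneg hρ.le]
  have h3c := three_circles hgd hr0 (hr0R.trans hρR) hA hB (z := z) (by rw [hzn]; exact hr0R.le)
    (by rw [hzn]; exact hρR.le)
  rw [hzn, ← hτ] at h3c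
  have hgz : Real.exp (-(L * ε)) ≤ ‖g z‖ := by
    rw [hgn]
    have hzz : (θ : ℂ) * I + z = ((Real.pi / 2 : ℝ) : ℂ) * I := by
      rw [hz]
      push_cast
      ring
    have hcz : Complex.cosh (θ * I + z) = 0 := by
      rw [hzz, Complex.cosh_mul_I]
      push_cast
      exact Complex.cos_pi_div_two
    have hz2 : ((θ * I + z) ^ 2).re = -(Real.pi ^ 2 / 4) := by
      rw [hzz, mul_pow, I_sq, ← ofReal_pow, mul_neg_one, neg_re, ofReal_re]
      ring
    rw [hcz, mul_zero, hz2]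
    have h0 : aeval (0 : ℂ) P = ((P.eval 0 : ℝ) : ℂ) := by
      simpa using (Polynomial.aeval_algebraMap_apply ℂ (0 : ℝ) P)
    rw [h0, norm_real, Real.norm_of_nonneg (eval_nonneg' hP le_rfl)]
    calc Real.exp (-(L * ε)) = Real.exp (L * (a - c * (Real.pi ^ 2 / 4) - ε)) *
          Real.exp (-(L * (a + c * (-(Real.pi ^ 2 / 4))))) := by
          rw [← Real.exp_add]; congr 1; ring
      _ ≤ _ := mul_le_mul_of_nonneg_right hlow (Real.exp_pos _).le
  have hfin := hgz.trans h3c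
  rw [← Real.exp_mul, ← Real.exp_mul, ← Real.exp_add, Real.exp_le_exp] at hfin
  have h9 : L * (-(δ / 2)) * (1 - τ) + L * ε * τ + L * ε < 0 := by
    have : L * (-(δ / 2)) * (1 - τ) + L * ε * τ + L * ε
        = L * (-(δ / 2) * (1 - τ) + ε * τ + ε) := by ring
    rw [this]
    apply mul_neg_of_pos_of_neg hL
    have h10 : ε * τ ≤ ε := by
      have := mul_le_mul_of_nonneg_left hτ1.le hεp.le
      linarith
    have h11 : 0 < (1 - τ) * δ := mul_pos (by linarith) hδ
    linarith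
  linarith

end NUA
end


/- part: Pool.Agent.NUA.ZExp -/
section
/-!
# The partition function of the sphere lattice for every loop weight `2 cos θ`, from (CR)

`cA = 2 / (3 π²)`, `hT θ = cA (π² / 4 - θ²)` = the exponent.
-/

open Filter Topology Polynomial

namespace NUA

open NUI Pool.Agent.NUF

/-- the coefficient. -/
noncomputable def cA : ℝ := 2 / (3 * Real.pi ^ 2)

lemma cA_pos : 0 < cA := by unfold cA; positivity

/-- the exponent of the loop weight `2 cos θ`. -/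
noncomputable def hT (θ : ℝ) : ℝ := cA * (Real.pi ^ 2 / 4 - θ ^ 2)

lemma cA_pi : cA * (Real.pi ^ 2 / 4) = 1 / 6 := by
  unfold cA
  field_simp; norm_num

/-- the relative weights. -/
noncomputable def kA (n : ℕ) : ℝ := W0 n / Real.exp (qA * (n : ℝ) ^ 2 + qB * n)

lemma kA_pos (n : ℕ) : 0 < kA n := div_pos (W0_pos n) (Real.exp_pos _)

lemma ZP_zero (n : ℕ) : (ZP n).eval 0 = 1 := by
  have h1 := ZP_eq 0 n
  have h2 : ZZ 0 n = 1 := div_self (Wd_ne n)
  rw [h2] at h1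
  have h3 : aeval (0 : ℂ) (ZP n) = (((ZP n).eval 0 : ℝ) : ℂ) := by
    simpa using (Polynomial.aeval_algebraMap_apply ℂ (0 : ℝ) (ZP n))
  rw [h3] at h1
  exact_mod_cast h1.symm

lemma aeval_real (P : ℝ[X]) (x : ℝ) : aeval (x : ℂ) P = ((P.eval x : ℝ) : ℂ) := by
  simpa using (Polynomial.aeval_algebraMap_apply ℂ x P)

lemma norm_ZZ {x : ℝ} (hx : 0 ≤ x) (n : ℕ) : ‖ZZ (x : ℂ) n‖ = (ZP n).eval x := by
  rw [ZP_eq, aeval_real, Complex.norm_real, Real.norm_of_nonneg (eval_nonneg' (ZP_nonneg n) hx)]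

lemma kA_low (ε : ℝ) (hε : 0 < ε) :
    ∀ᶠ m : ℕ in atTop, Real.exp ((3 / 8 - cA * (Real.pi ^ 2 / 4) - ε) * Real.log m) ≤ kA m := by
  have h := kappa_low ε hε
  have e : (3 / 8 : ℝ) - cA * (Real.pi ^ 2 / 4) - ε = 5 / 24 - ε := by rw [cA_pi]; ring
  simpa only [e, kA] using h

lemma cosh_thI (θ : ℝ) : 2 * Complex.cosh (θ * Complex.I) = ((2 * Real.cos θ : ℝ) : ℂ) := by
  rw [Complex.cosh_mul_I, ← Complex.ofReal_cos]
  push_cast
  ring

lemma sq_thI (θ : ℝ) : (((θ : ℂ) * Complex.I) ^ 2).re = -θ ^ 2 := by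
  rw [mul_pow, Complex.I_sq, ← Complex.ofReal_pow, mul_neg_one, Complex.neg_re, Complex.ofReal_re]

/-- the sum over the numbers of rows near `m`, from above. -/
lemma SS_up (h : Target) {θ : ℝ} (h0 : 0 ≤ θ) (h1 : θ ≤ Real.pi / 2) {ε : ℝ} (hε : 0 < ε) :
    ∀ᶠ m : ℕ in atTop, (SS kA ZP m).eval (2 * Real.cos θ) ≤
      Real.exp (Real.log m * (3 / 8 - cA * θ ^ 2 + ε)) := by
  have hpi := Real.pi_lt_d2
  filter_upwards [CF (c := cA) (R := 17 / 10) (κ := kA) cA_pos le_rfl (growth_of_CR h) hε] with m hm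
  have hn : ‖(θ : ℂ) * Complex.I‖ ≤ 17 / 10 := by
    rw [norm_mul, Complex.norm_I, mul_one, Complex.norm_real, Real.norm_of_nonneg h0]
    linarith
  have h2 := hm (θ * Complex.I) hn
  have hcos : 0 ≤ Real.cos θ := Real.cos_nonneg_of_neg_pi_div_two_le_of_le (by linarith [Real.pi_pos]) h1
  rw [cosh_thI, aeval_real, Complex.norm_real,
    Real.norm_of_nonneg (eval_nonneg' (SS_coeff kA_pos ZP_nonneg m) (by positivity)), sq_thI] at h2
  refine h2.trans (le_of_eq ?_)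
  congr 1
  ring

/-- **The partition function from above.** -/
theorem ZP_up (h : Target) {θ : ℝ} (h0 : 0 ≤ θ) (h1 : θ ≤ Real.pi / 2) {ε : ℝ} (hε : 0 < ε) :
    ∀ᶠ m : ℕ in atTop, (ZP m).eval (2 * Real.cos θ) ≤ Real.exp (Real.log m * (hT θ + ε)) := by
  have hcos : 0 ≤ Real.cos θ := Real.cos_nonneg_of_neg_pi_div_two_le_of_le (by linarith [Real.pi_pos]) h1
  filter_upwards [SS_up h h0 h1 (half_pos hε), kA_low (ε / 2) (half_pos hε), NN_le_self] with m hm hκ hNN
  rw [SS_eval] at hm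
  have hmem : NN m ∈ Finset.range (2 * NN m + 1) := by
    rw [Finset.mem_range]; omega
  have h2 := Finset.single_le_sum
    (f := fun i => wt m i * kA (m - NN m + i) * (ZP (m - NN m + i)).eval (2 * Real.cos θ))
    (fun i _ => mul_nonneg (mul_nonneg (wt_pos m i).le (kA_pos _).le)
      (eval_nonneg' (ZP_nonneg _) (by positivity))) hmem
  have h3 : wt m (NN m) = 1 := by
    unfold wt
    simp
  rw [h3, one_mul, Nat.sub_add_cancel hNN] at h2
  have h4 := h2.trans hm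
  have h5 : 0 ≤ (ZP m).eval (2 * Real.cos θ) := eval_nonneg' (ZP_nonneg _) (by positivity)
  have h6 := (mul_le_mul_of_nonneg_right hκ h5).trans h4
  have h7 := Real.exp_pos ((3 / 8 - cA * (Real.pi ^ 2 / 4) - ε / 2) * Real.log m)
  rw [mul_comm, ← le_div_iff₀ h7, ← Real.exp_sub] at h6
  refine h6.trans (le_of_eq ?_)
  congr 1
  unfold hT
  ring

/-- **The partition function from below**, some number of rows near every `m`. -/
theorem ZP_low (h : Target) {θ : ℝ} (h0 : 0 ≤ θ) (h1 : θ < Real.pi / 2) {ε : ℝ} (hε : 0 < ε) :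
    ∀ᶠ m : ℕ in atTop, ∃ J : ℕ, m ≤ J + NN m ∧ J ≤ m + NN m ∧
      Real.exp (Real.log m * (hT θ - ε)) ≤ (ZP J).eval (2 * Real.cos θ) := by
  have hpi := Real.pi_lt_d2
  obtain ⟨ε1, hε1, hchain⟩ := chainT (c := cA) (R := 17 / 10) (δ := ε / 2) cA_pos (by linarith)
    (half_pos hε) h0 h1
  obtain ⟨e0, he0⟩ : ∃ e0 : ℝ, e0 = min ε1 (ε / 4) := ⟨_, rfl⟩
  have he0p : 0 < e0 := by rw [he0]; exact lt_min hε1 (by linarith)
  have he1 : e0 ≤ ε1 := by rw [he0]; exact min_le_left _ _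
  have he2 : e0 ≤ ε / 4 := by rw [he0]; exact min_le_right _ _
  have hcos : 0 ≤ Real.cos θ :=
    Real.cos_nonneg_of_neg_pi_div_two_le_of_le (by linarith [Real.pi_pos]) h1.le
  filter_upwards [CF (c := cA) (R := 17 / 10) (κ := kA) cA_pos le_rfl (growth_of_CR h) he0p,
    kA_low e0 he0p, NN_le_self, log_ge 1,
    SS_up h (θ := Real.pi / 2) (by linarith [Real.pi_pos]) le_rfl he0p] with m hCF hκm hNN hL1 hS0
  obtain ⟨L, hLd⟩ : ∃ L, L = Real.log m := ⟨_, rfl⟩
  rw [← hLd] at hCF hκm hL1 hS0 ⊢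
  have hLp : 0 < L := by linarith
  have hScoef := SS_coeff kA_pos ZP_nonneg m
  have hS0e : (SS kA ZP m).eval 0 = ∑ i ∈ Finset.range (2 * NN m + 1), wt m i * kA (m - NN m + i) := by
    rw [SS_eval]
    apply Finset.sum_congr rfl
    intro i _
    rw [ZP_zero, mul_one]
  have hS0low : Real.exp (L * (3 / 8 - cA * (Real.pi ^ 2 / 4) - e0)) ≤ (SS kA ZP m).eval 0 := by
    rw [hS0e]
    have hmem : NN m ∈ Finset.range (2 * NN m + 1) := by
      rw [Finset.mem_range]; omega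
    have h1 := Finset.single_le_sum (f := fun i => wt m i * kA (m - NN m + i))
      (fun i _ => mul_nonneg (wt_pos m i).le (kA_pos _).le) hmem
    refine le_trans ?_ h1
    have h2 : wt m (NN m) = 1 := by
      unfold wt
      simp
    rw [h2, one_mul, Nat.sub_add_cancel hNN, mul_comm]
    exact hκm
  have hS2 : Real.exp (L * (3 / 8 - cA * θ ^ 2 - ε / 2)) ≤ (SS kA ZP m).eval (2 * Real.cos θ) := by
    apply hchain (3 / 8) L hLp _ hScoef
    · intro b hb
      refine (hCF b hb).trans ?_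
      apply Real.exp_le_exp.mpr
      apply mul_le_mul_of_nonneg_left _ hLp.le
      linarith
    · refine le_trans ?_ hS0low
      apply Real.exp_le_exp.mpr
      apply mul_le_mul_of_nonneg_left _ hLp.le
      linarith
  rw [Real.cos_pi_div_two, mul_zero] at hS0
  by_contra hcon
  push Not at hcon
  have h8 : (SS kA ZP m).eval (2 * Real.cos θ) ≤
      Real.exp (L * (hT θ - ε)) * (SS kA ZP m).eval 0 := by
    rw [SS_eval, hS0e, Finset.mul_sum]
    refine Finset.sum_le_sum fun i hi => ?_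
    rw [Finset.mem_range] at hi
    have h9 := hcon (m - NN m + i) (by omega) (by omega)
    have h10 : 0 ≤ wt m i * kA (m - NN m + i) := mul_nonneg (wt_pos _ _).le (kA_pos _).le
    calc wt m i * kA (m - NN m + i) * (ZP (m - NN m + i)).eval (2 * Real.cos θ)
        ≤ wt m i * kA (m - NN m + i) * Real.exp (L * (hT θ - ε)) :=
          mul_le_mul_of_nonneg_left h9.le h10
      _ = _ := by ring
  have h11 : Real.exp (L * (3 / 8 - cA * θ ^ 2 - ε / 2)) ≤
      Real.exp (L * (hT θ - ε)) * Real.exp (L * (3 / 8 - cA * (Real.pi / 2) ^ 2 + e0)) :=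
    hS2.trans (h8.trans (mul_le_mul_of_nonneg_left hS0 (Real.exp_pos _).le))
  rw [← Real.exp_add, Real.exp_le_exp] at h11
  have h12 : L * (hT θ - ε) + L * (3 / 8 - cA * (Real.pi / 2) ^ 2 + e0) =
      L * (3 / 8 - cA * θ ^ 2 - ε + e0) := by
    unfold hT
    ring
  rw [h12] at h11
  have h13 := le_of_mul_le_mul_left h11 hLp
  linarith

end NUA
end


/- part: Pool.Agent.NUA.WindT -/
section
/-!
# `WindUp` for every loop weight in `[0, 2]` and every number of rows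
-/

set_option autoImplicit false

namespace Pool.Agent.NUF.Cyl

open Finset HexObs HexObs.LP Pool.Agent.NUN Pool.Agent.PLW

open Classical in
/-- **The cylinder with `2 m` rows against two planar parallelograms.** -/
theorem ring_leT : ∃ C : ℝ, 0 < C ∧ ∀ (m : ℕ), 2 ≤ m → ∀ (hN : 1 ≤ 2 * m) (A : Finset Pt) (x : ℝ), 0 ≤ x → x ≤ 2 →
    GP (fun E => (x / 2) * xc ^ E.card) (((Cy (2 * m) hN).polys A).filter (Lab1 m)) ≤
      C * LP.NF x (HexObs.LP.PP (4 * m) m) f0 ^ 2 := by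
  obtain ⟨C, hC, hmid⟩ := mid_sum 2
  refine ⟨Real.exp C, Real.exp_pos _, ?_⟩
  intro m hm hN A x hx hx2
  obtain ⟨k, rfl⟩ : ∃ k, m = k + 1 := ⟨m - 1, by omega⟩
  have hk : 1 ≤ k := by omega
  set Q := ((Cy (2 * (k + 1)) hN).polys A).filter (Lab1 (k + 1)) with hQ
  set M := Q.filter (fun E =>
    (¬ ∃ E', LP.IsPoly E' ∧ VE E' ⊆ Bq (fc 0) k ∧ Nw E' (fc 0) ≠ 0 ∧ E = imE (Cy (2 * (k + 1)) hN) E') ∧
    (¬ ∃ E', LP.IsPoly E' ∧ VE E' ⊆ Bq (fc (k + 1)) k ∧ Nw E' (fc (k + 1)) ≠ 0 ∧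
      E = imE (Cy (2 * (k + 1)) hN) E')) with hM
  have hy : (0 : ℝ) ≤ x / 2 := by linarith
  have h1 := gas_le (Cy (2 * (k + 1)) hN) (y := x / 2) hy (Fc_fc 0) (Fc_fc (k + 1))
    (Bq_inj hN (f := fc 0) (s := k) (by omega)) (Bq_inj hN (f := fc (k + 1)) (s := k) (by omega)) A Q M
    (fun E hE => by
      by_cases c1 : ∃ E', LP.IsPoly E' ∧ VE E' ⊆ Bq (fc 0) k ∧ Nw E' (fc 0) ≠ 0 ∧ E = imE (Cy (2 * (k + 1)) hN) E'
      · exact Or.inl c1
      · by_cases c2 : ∃ E', LP.IsPoly E' ∧ VE E' ⊆ Bq (fc (k + 1)) k ∧ Nw E' (fc (k + 1)) ≠ 0 ∧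
            E = imE (Cy (2 * (k + 1)) hN) E'
        · exact Or.inr (Or.inl c2)
        · exact Or.inr (Or.inr (mem_filter.2 ⟨hE, c1, c2⟩)))
    (gasLo hN (k + 1) (x / 2) A)
  have h2 : ∑ E ∈ M, xc ^ E.card ≤ C := by
    refine hmid (2 * (k + 1)) hN (k + 1) k (Bq (fc 0) k) (Bq (fc (k + 1)) k) M (by omega) (by omega)
      (fun w hw hw2 => mem_Bq.2 ⟨hw, hw2⟩) (fun w hw hw2 => mem_Bq.2 ⟨hw, hw2⟩) fun E hE => ?_
    obtain ⟨h3, h4, h5⟩ := mem_filter.1 hE
    obtain ⟨h6, h7⟩ := mem_filter.1 h3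
    refine ⟨(Nm.mem_polys'.1 h6).1, ?_, h4, h5⟩
    have h8 : ∑ q ∈ E, ((cr (fc (k + 1)) q : ℤ) : ZMod 2) = 1 := h7
    rw [h8]
    decide
  have hsub : HexObs.LP.PP (4 * k) k ⊆ HexObs.LP.PP (4 * (k + 1)) (k + 1) := by
    intro v hv
    rw [mem_PP] at hv ⊢
    refine ⟨hv.1, lt_of_lt_of_le hv.2.1 ?_, lt_of_lt_of_le hv.2.2 ?_⟩
    · push_cast
      linarith
    · push_cast
      linarith
  have h3 := (NF_Bq (x := x) hx 0 k hk).trans (NF_mono hx f0 hsub)
  have h4 := (NF_Bq (x := x) hx (k + 1) k hk).trans (NF_mono hx f0 hsub)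
  have h5 : 0 ≤ NUN.NF xc (x / 2) (fc (k + 1)) (Bq (fc (k + 1)) k) :=
    le_trans zero_le_one (one_le_NF' hy _ _)
  have h6 : (0 : ℝ) ≤ LP.NF x (HexObs.LP.PP (4 * (k + 1)) (k + 1)) f0 := le_trans zero_le_one (one_le_NF hx _ _)
  refine h1.trans ?_
  rw [mul_comm (Real.exp C), sq]
  have h7 : x / 2 * ∑ E ∈ M, xc ^ E.card ≤ C := by
    have h8 : 0 ≤ ∑ E ∈ M, xc ^ E.card := Finset.sum_nonneg fun E _ => pow_nonneg xc_pos.le _
    have h9 : x / 2 * ∑ E ∈ M, xc ^ E.card ≤ 1 * ∑ E ∈ M, xc ^ E.card :=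
      mul_le_mul_of_nonneg_right (by linarith) h8
    linarith
  exact mul_le_mul (mul_le_mul h3 h4 h5 h6) (Real.exp_le_exp.2 h7) (Real.exp_pos _).le (mul_nonneg h6 h6)

end Pool.Agent.NUF.Cyl

namespace Pool.Agent.NUA

open HexObs HexObs.LP Pool.Agent.NUN Pool.Agent.NUF Pool.Agent.NUF.Cyl Pool.Agent.NUNC

/-- **The loops that wind round the cylinder cost a constant only**, every loop weight in `[0, 2]`. -/
theorem windT : ∃ C : ℝ, 0 < C ∧ ∀ (m : ℕ), 2 ≤ m → ∀ x : ℝ, 0 ≤ x → x ≤ 2 →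
    ‖ZZ (x : ℂ) m‖ ≤ C * HexObs.LP.NF x (HexObs.LP.PP (4 * m) m) f0 ^ 2 := by
  classical
  obtain ⟨C, hC, h⟩ := ring_leT
  refine ⟨C, hC, fun m hm x hx hx2 => ?_⟩
  have hN : 1 ≤ 2 * m := by omega
  refine norm_ZZ_le hx (k := m) hN fun j => ?_
  refine le_trans (le_of_eq ?_) (h m hm hN (Om (2 * m) j) x hx hx2)
  unfold Pool.Agent.NUNC.GC
  congr 1
  ext E
  rw [mem_odd, Finset.mem_filter, Nm.mem_polys', and_assoc]
  exact Iff.rfl

end Pool.Agent.NUA
end


/- part: Pool.Agent.NUA.NFExp -/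
section
/-!
# The gas of nested polygons of a strip, every loop weight `2 cos θ`
-/

set_option autoImplicit false

open Filter Topology Polynomial

namespace NUA

open NUI Pool.Agent.NUF HexObs HexObs.LP

lemma tcos_nonneg {θ : ℝ} (h0 : 0 ≤ θ) (h1 : θ ≤ Real.pi / 2) : 0 ≤ 2 * Real.cos θ := by
  have := Real.cos_nonneg_of_neg_pi_div_two_le_of_le (by linarith [Real.pi_pos]) h1
  positivity

lemma tcos_le (θ : ℝ) : 2 * Real.cos θ ≤ 2 := by
  have := Real.cos_le_one θ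
  linarith

lemma PP_mono {T T' M M' : ℕ} (h : T ≤ T') (h' : M ≤ M') : HexObs.LP.PP T M ⊆ HexObs.LP.PP T' M' := by
  intro v hv
  rw [mem_PP] at hv ⊢
  have h1 : (T : ℤ) ≤ T' := by exact_mod_cast h
  have h2 : (M : ℤ) ≤ M' := by exact_mod_cast h'
  exact ⟨hv.1, by linarith [hv.2.1], by linarith [hv.2.2]⟩

/-- **Upper bound.** -/
theorem NF_up (h : Target) {θ : ℝ} (h0 : 0 ≤ θ) (h1 : θ ≤ Real.pi / 2) {ε : ℝ} (hε : 0 < ε) :
    ∀ᶠ T : ℕ in atTop, ∀ M : ℕ, NF (2 * Real.cos θ) (HexObs.LP.PP T M) f0 ≤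
      Real.exp (Real.log T * (hT θ / 2 + ε)) := by
  have h2 := ZP_up h h0 h1 hε
  have htend : Tendsto (fun T : ℕ => 2 * T) atTop atTop :=
    tendsto_id.const_mul_atTop' (by norm_num : 0 < 2)
  have hC := log_ge (Real.log 2 * (hT θ + ε) / ε)
  filter_upwards [htend.eventually h2, eventually_ge_atTop 1, hC] with T hT1 hTp hTL M
  obtain ⟨x, hx, hx1⟩ := NF_le_ZZ (n' := 2 * Real.cos θ) (tcos_nonneg h0 h1) hTp M
  have h3 : x = (ZP (2 * T)).eval (2 * Real.cos θ) := by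
    rw [ZP_eq, aeval_real] at hx
    exact_mod_cast hx.symm
  have hT0 : (0 : ℝ) < T := by exact_mod_cast hTp
  rw [div_le_iff₀ hε] at hTL
  have h4 : NF (2 * Real.cos θ) (HexObs.LP.PP T M) f0 ^ 2 ≤
      Real.exp (Real.log T * (hT θ / 2 + ε)) ^ 2 := by
    refine hx1.trans ?_
    rw [h3]
    refine hT1.trans ?_
    rw [← Real.exp_nat_mul]
    apply Real.exp_le_exp.2
    push_cast
    rw [Real.log_mul (by norm_num) hT0.ne']
    nlinarith
  exact (le_abs_self _).trans (abs_le_of_sq_le_sq h4 (Real.exp_pos _).le)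

/-- **Lower bound.** -/
theorem NF_low (h : Target) {θ : ℝ} (h0 : 0 ≤ θ) (h1 : θ < Real.pi / 2) {ε : ℝ} (hε : 0 < ε) :
    ∀ᶠ T : ℕ in atTop, Real.exp (Real.log T * (hT θ / 2 - ε)) ≤
      NF (2 * Real.cos θ) (HexObs.LP.PP T T) f0 := by
  obtain ⟨C, hC, hW⟩ := Pool.Agent.NUA.windT
  have h2 := ZP_low h h0 h1 hε
  have htend : Tendsto (fun T : ℕ => T / 8) atTop atTop := Nat.tendsto_div_const_atTop (by norm_num)
  have hB : ∀ᶠ m : ℕ in atTop, 2 * NUI.NN m + 4 ≤ m := by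
    filter_upwards [poly_absorb (C := 4) (ε := 1) one_pos, eventually_ge_atTop 1] with m hm h1
    have hm0 : (0 : ℝ) < m := by exact_mod_cast h1
    rw [one_mul, Real.exp_log hm0] at hm
    have h3 := NN_le m
    have h4 : (2 * NUI.NN m + 4 : ℝ) ≤ m := by nlinarith [sq_nonneg (Real.log m)]
    exact_mod_cast h4
  -- the constant
  obtain ⟨D, hD⟩ : ∃ D : ℝ, D = (|Real.log C| + |Real.log 16 * (hT θ - ε)|) / ε := ⟨_, rfl⟩
  filter_upwards [htend.eventually h2, htend.eventually hB, eventually_ge_atTop 16, log_ge D] with T hT1 hT2 hT16 hTL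
  obtain ⟨m, hm⟩ : ∃ m, m = T / 8 := ⟨_, rfl⟩
  rw [← hm] at hT1 hT2
  obtain ⟨J, hJ1, hJ2, hJ3⟩ := hT1
  have hJ4 : 2 ≤ J := by omega
  have hJ5 : 4 * J ≤ T := by omega
  have h3 := hW J hJ4 (2 * Real.cos θ) (tcos_nonneg h0 h1.le) (tcos_le θ)
  rw [norm_ZZ (tcos_nonneg h0 h1.le)] at h3
  have h4 : NF (2 * Real.cos θ) (HexObs.LP.PP (4 * J) J) f0 ≤ NF (2 * Real.cos θ) (HexObs.LP.PP T T) f0 :=
    NF_mono (tcos_nonneg h0 h1.le) f0 (PP_mono hJ5 (by omega))
  have h5 : (1 : ℝ) ≤ NF (2 * Real.cos θ) (HexObs.LP.PP (4 * J) J) f0 :=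
    one_le_NF (tcos_nonneg h0 h1.le) _ _
  have h6 : Real.exp (Real.log m * (hT θ - ε)) ≤ C * NF (2 * Real.cos θ) (HexObs.LP.PP T T) f0 ^ 2 :=
    hJ3.trans (h3.trans (mul_le_mul_of_nonneg_left (pow_le_pow_left₀ (by linarith) h4 2) hC.le))
  have hT0 : (0 : ℝ) < T := by exact_mod_cast (by omega : 0 < T)
  have hm0 : (0 : ℝ) < m := by exact_mod_cast (by omega : 0 < m)
  have hNF : 0 < NF (2 * Real.cos θ) (HexObs.LP.PP T T) f0 := by linarith
  -- logarithms
  have h7 := Real.log_le_log (Real.exp_pos _) h6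
  rw [Real.log_exp, Real.log_mul hC.ne' (by positivity), Real.log_pow] at h7
  have h8 : Real.log T - Real.log 16 ≤ Real.log m := by
    have e : (T : ℝ) ≤ 16 * m := by exact_mod_cast (by omega : T ≤ 16 * m)
    have := Real.log_le_log hT0 e
    rw [Real.log_mul (by norm_num) hm0.ne'] at this
    linarith
  have h8' : Real.log m ≤ Real.log T := by
    have e : (m : ℝ) ≤ T := by exact_mod_cast (by omega : m ≤ T)
    exact Real.log_le_log hm0 e
  have h9 : Real.log T * (hT θ - ε) - |Real.log 16 * (hT θ - ε)| ≤ Real.log m * (hT θ - ε) := by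
    rcases le_total 0 (hT θ - ε) with h10 | h10
    · have h11 : 0 ≤ Real.log 16 * (hT θ - ε) := mul_nonneg (Real.log_nonneg (by norm_num)) h10
      rw [abs_of_nonneg h11]
      have := mul_le_mul_of_nonneg_right h8 h10
      linarith
    · have := mul_le_mul_of_nonpos_right h8' h10
      have h12 := abs_nonneg (Real.log 16 * (hT θ - ε))
      linarith
  rw [hD, div_le_iff₀ hε] at hTL
  have h13 := le_abs_self (Real.log C)
  rw [← Real.log_le_log_iff (Real.exp_pos _) hNF, Real.log_exp]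
  push_cast at h7
  have h14 : Real.log T * (hT θ / 2 - ε) = (Real.log T * (hT θ - ε) - Real.log T * ε) / 2 := by ring
  rw [h14]
  linarith

end NUA
end


/- part: Pool.Agent.NUA.LevW -/
section
/-!
# The first order coefficient of the chain sums against the chain sums (abstract part)

`exp_up`: `Z(δ w) ≤ exp (δ W)`.  `block`: `W ≤ log Z(δ w) / δ + C0 m + δ n² C0² m / 2` for `m n` levels.
-/

set_option autoImplicit false

namespace Pool.Agent.NUA

open Finset Pool.Agent.ZF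
open scoped Classical

variable {P : Type*} [PartialOrder P]

/-- the chain sum is at most the exponential of the total weight. -/
theorem exp_up {v : P → ℝ} (hv : ∀ l, 0 ≤ v l) (D : Finset P) : Zf v D ≤ Real.exp (∑ l ∈ D, v l) := by
  have h1 : Zf v D ≤ ∏ l ∈ D, (v l + 1) := by
    rw [Finset.prod_add_one]
    refine Finset.sum_le_sum_of_subset_of_nonneg (Finset.filter_subset _ _) fun C _ _ =>
      Finset.prod_nonneg fun l _ => hv l
  refine h1.trans ?_
  rw [Real.exp_sum]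
  refine Finset.prod_le_prod (fun l _ => by have := hv l; linarith) fun l _ => ?_
  exact Real.add_one_le_exp _

theorem log_low {x : ℝ} (hx : 0 ≤ x) : x - x ^ 2 / 2 ≤ Real.log (1 + x) := by
  have h1 := Real.le_log_one_add_of_nonneg hx
  refine le_trans ?_ h1
  rw [le_div_iff₀ (by linarith)]
  nlinarith [sq_nonneg x, mul_nonneg hx (sq_nonneg x)]

variable {B : ℕ → Finset P} {w : P → ℝ} {C0 c0 : ℝ} {m n : ℕ}

/-- the elements of the block `k`. -/
noncomputable def blk (B : ℕ → Finset P) (n k : ℕ) : Finset P :=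
  (B ((k + 1) * n)).filter fun l => ∀ b ∈ B (k * n), b < l

section

variable (L : Lev (m * n) B w C0 c0)
include L

theorem B_step_le {i : ℕ} (hi : i < m * n) : ∑ l ∈ B (i + 1) \ B i, w l ≤ C0 := by
  refine le_trans (Finset.sum_le_sum_of_subset_of_nonneg ?_ fun l _ _ => L.w0 l) (L.E1 i hi)
  intro l hl
  rw [Finset.mem_sdiff] at hl
  simp only [cross, Finset.mem_filter]
  exact ⟨L.mono' (by omega) le_rfl hl.1, hl.2, fun h => lt_irrefl _ (h l hl.1)⟩

theorem B_sum_le {i j : ℕ} (hj : i + j ≤ m * n) : ∑ l ∈ B (i + j) \ B i, w l ≤ j * C0 := by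
  induction j with
  | zero => simp
  | succ j ih =>
    have h1 : B (i + (j + 1)) \ B i ⊆ (B (i + j) \ B i) ∪ (B (i + j + 1) \ B (i + j)) := by
      intro l hl
      rw [Finset.mem_sdiff] at hl
      rw [Finset.mem_union, Finset.mem_sdiff, Finset.mem_sdiff]
      by_cases h : l ∈ B (i + j)
      · exact Or.inl ⟨h, hl.2⟩
      · exact Or.inr ⟨hl.1, h⟩
    have h2 := Finset.sum_le_sum_of_subset_of_nonneg h1 fun l _ _ => L.w0 l
    have h3 := Finset.sum_union_inter (s₁ := B (i + j) \ B i) (s₂ := B (i + j + 1) \ B (i + j)) (f := w)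
    have h4 : 0 ≤ ∑ l ∈ (B (i + j) \ B i) ∩ (B (i + j + 1) \ B (i + j)), w l :=
      Finset.sum_nonneg fun l _ => L.w0 l
    have h5 := ih (by omega)
    have h6 := B_step_le L (i := i + j) (by omega)
    push_cast
    linarith

theorem blk_le {k : ℕ} (hk : k < m) : ∑ l ∈ blk B n k, w l ≤ n * C0 := by
  have hkn : k * n + n ≤ m * n := by
    have : (k + 1) * n ≤ m * n := Nat.mul_le_mul_right n hk
    linarith
  have h1 := B_sum_le L (i := k * n) (j := n) hkn
  refine le_trans (Finset.sum_le_sum_of_subset_of_nonneg ?_ fun l _ _ => L.w0 l) h1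
  intro l hl
  simp only [blk, Finset.mem_filter] at hl
  rw [Finset.mem_sdiff]
  refine ⟨by rw [show k * n + n = (k + 1) * n by ring]; exact hl.1, fun h => lt_irrefl _ (hl.2 l h)⟩

theorem blk_ge {k : ℕ} (hk : k < m) :
    ∑ l ∈ B ((k + 1) * n), w l - ∑ l ∈ B (k * n), w l ≤ (∑ l ∈ blk B n k, w l) + C0 := by
  have hkn : k * n + n ≤ m * n := by
    have : (k + 1) * n ≤ m * n := Nat.mul_le_mul_right n hk
    linarith
  have e : (k + 1) * n = k * n + n := by ring
  have h0 : B (k * n) ⊆ B ((k + 1) * n) := L.mono' (by rw [e]; omega) (by rw [e]; exact hkn)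
  have h1 : ∑ l ∈ B ((k + 1) * n), w l - ∑ l ∈ B (k * n), w l = ∑ l ∈ B ((k + 1) * n) \ B (k * n), w l := by
    rw [← Finset.sum_sdiff h0]
    ring
  rw [h1]
  rcases Nat.eq_zero_or_pos (k * n) with h2 | h2
  · have h3 : B ((k + 1) * n) \ B (k * n) ⊆ blk B n k := by
      intro l hl
      rw [Finset.mem_sdiff] at hl
      simp only [blk, Finset.mem_filter]
      refine ⟨hl.1, fun b hb => ?_⟩
      rw [h2, L.B0] at hb
      exact absurd hb (Finset.notMem_empty b)
    have h4 := Finset.sum_le_sum_of_subset_of_nonneg h3 fun l _ _ => L.w0 l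
    have := L.hC0
    linarith
  · have h3 : B ((k + 1) * n) \ B (k * n) ⊆ blk B n k ∪ cross B (m * n) (k * n - 1) := by
      intro l hl
      rw [Finset.mem_sdiff] at hl
      rw [Finset.mem_union]
      by_cases h : ∀ b ∈ B (k * n), b < l
      · left
        simp only [blk, Finset.mem_filter]
        exact ⟨hl.1, h⟩
      · right
        simp only [cross, Finset.mem_filter]
        have e2 : k * n - 1 + 1 = k * n := by omega
        rw [e2]
        exact ⟨L.mono' (by rw [e]; exact hkn) le_rfl hl.1,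
          fun h' => hl.2 (L.mono' (Nat.sub_le _ _) (by omega) h'), h⟩
    have h4 := Finset.sum_le_sum_of_subset_of_nonneg h3 fun l _ _ => L.w0 l
    have h5 := Finset.sum_union_inter (s₁ := blk B n k) (s₂ := cross B (m * n) (k * n - 1)) (f := w)
    have h6 : 0 ≤ ∑ l ∈ blk B n k ∩ cross B (m * n) (k * n - 1), w l :=
      Finset.sum_nonneg fun l _ => L.w0 l
    have h7 := L.E1 (k * n - 1) (by omega)
    linarith

theorem Zf_blocks {δ : ℝ} (hδ : 0 ≤ δ) {j : ℕ} (hj : j ≤ m) :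
    ∏ k ∈ Finset.range j, (1 + δ * ∑ l ∈ blk B n k, w l) ≤ Zf (fun l => δ * w l) (B (j * n)) := by
  have hv : ∀ l, 0 ≤ (fun l => δ * w l) l := fun l => mul_nonneg hδ (L.w0 l)
  induction j with
  | zero =>
    rw [Finset.prod_range_zero]
    exact one_le_Zf (fun l => δ * w l) hv _
  | succ j ih =>
    rw [Finset.prod_range_succ]
    have e : (j + 1) * n = j * n + n := by ring
    have hjn : j * n + n ≤ m * n := by
      have : (j + 1) * n ≤ m * n := Nat.mul_le_mul_right n hj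
      linarith
    have h1 := Zf_growth (fun l => δ * w l) hv (B := B (j * n)) (B' := B ((j + 1) * n)) (S := blk B n j)
      (L.mono' (by rw [e]; omega) (by rw [e]; exact hjn)) (Finset.filter_subset _ _) (fun l hl b hb => by
        simp only [blk, Finset.mem_filter] at hl
        exact hl.2 b hb)
    refine le_trans ?_ h1
    rw [← Finset.mul_sum, mul_comm]
    exact mul_le_mul_of_nonneg_left (ih (by omega)) (by
      have : 0 ≤ ∑ l ∈ blk B n j, w l := Finset.sum_nonneg fun l _ => L.w0 l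
      positivity)

/-- **The first order coefficient from above.** -/
theorem block {δ : ℝ} (hδ : 0 < δ) :
    ∑ l ∈ B (m * n), w l ≤
      Real.log (Zf (fun l => δ * w l) (B (m * n))) / δ + C0 * m + δ * (n * C0) ^ 2 * m / 2 := by
  have hw : ∀ k, 0 ≤ ∑ l ∈ blk B n k, w l := fun k => Finset.sum_nonneg fun l _ => L.w0 l
  have h1 := Zf_blocks L hδ.le (le_refl m)
  have hpos : ∀ k ∈ Finset.range m, 0 < 1 + δ * ∑ l ∈ blk B n k, w l := fun k _ => by
    have := mul_nonneg hδ.le (hw k)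
    linarith
  have h2 := Real.log_le_log (Finset.prod_pos hpos) h1
  rw [Real.log_prod (fun k hk => (hpos k hk).ne')] at h2
  have h3 : ∑ k ∈ Finset.range m, (δ * ∑ l ∈ blk B n k, w l - δ ^ 2 * (n * C0) ^ 2 / 2) ≤
      ∑ k ∈ Finset.range m, Real.log (1 + δ * ∑ l ∈ blk B n k, w l) := by
    refine Finset.sum_le_sum fun k hk => le_trans ?_ (log_low (mul_nonneg hδ.le (hw k)))
    have h4 := blk_le L (Finset.mem_range.1 hk)
    have h5 : (∑ l ∈ blk B n k, w l) ^ 2 ≤ (n * C0) ^ 2 := pow_le_pow_left₀ (hw k) h4 2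
    have h6 := mul_le_mul_of_nonneg_left h5 (sq_nonneg δ)
    rw [mul_pow]
    linarith
  have h7 : ∀ j ≤ m, ∑ l ∈ B (j * n), w l ≤ ∑ k ∈ Finset.range j, ((∑ l ∈ blk B n k, w l) + C0) := by
    intro j hj
    induction j with
    | zero => simp [L.B0]
    | succ j ih =>
      rw [Finset.sum_range_succ]
      have h8 := blk_ge L (k := j) (by omega)
      have h9 := ih (by omega)
      linarith
  have h8 := h7 m le_rfl
  rw [Finset.sum_add_distrib, Finset.sum_const, Finset.card_range, nsmul_eq_mul] at h8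
  rw [Finset.sum_sub_distrib, Finset.sum_const, Finset.card_range, nsmul_eq_mul, ← Finset.mul_sum] at h3
  have h9 : δ * ∑ k ∈ Finset.range m, ∑ l ∈ blk B n k, w l ≤
      Real.log (Zf (fun l => δ * w l) (B (m * n))) + m * (δ ^ 2 * (n * C0) ^ 2 / 2) := by linarith
  have h10 : ∑ k ∈ Finset.range m, ∑ l ∈ blk B n k, w l ≤
      (Real.log (Zf (fun l => δ * w l) (B (m * n))) + m * (δ ^ 2 * (n * C0) ^ 2 / 2)) / δ := by
    rw [le_div_iff₀ hδ]
    linarith
  have h11 : (Real.log (Zf (fun l => δ * w l) (B (m * n))) + m * (δ ^ 2 * (n * C0) ^ 2 / 2)) / δ =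
      Real.log (Zf (fun l => δ * w l) (B (m * n))) / δ + δ * (n * C0) ^ 2 * m / 2 := by
    field_simp
  linarith

end

end Pool.Agent.NUA
end


/- part: Pool.Agent.NUA.W1 -/
section
namespace NUI
end NUI

/-!
# The total weight of the polygons around a face

`WW Ω` = total weight of the oriented polygons of `Ω` around the face `f0`.
-/

set_option autoImplicit false

open Filter Topology

namespace NUA

open NUI Pool.Agent.NUF HexObs HexObs.LP Pool.Agent.ZF

/-- the total weight of the oriented polygons around `f0` in `Ω`. -/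
noncomputable def WW (Ω : Finset Pt) : ℝ := ∑ E ∈ Pool.Agent.NUN.pf f0 Ω, xc ^ E.card

theorem Fc_f0 : Fc f0 := by
  unfold Fc
  decide

theorem Ball_f0 (s : ℕ) : Ball f0 s = HexObs.LP.PP s s := by
  ext v
  rw [mem_Ball Fc_f0, mem_PP]
  have h1 : lv f0 = 1 := by decide
  have h2 : nn f0 = 1 := by decide
  rw [h1, h2]

theorem sum_pg (Ω : Finset Pt) : ∑ E ∈ pg f0 Ω, wP E = WW Ω := by
  unfold WW
  exact sum_wP _ _ rfl

theorem WW_mono {Ω Ω' : Finset Pt} (h : Ω ⊆ Ω') : WW Ω ≤ WW Ω' := by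
  rw [← sum_pg, ← sum_pg]
  exact Finset.sum_le_sum_of_subset_of_nonneg (pg_mono h) fun E _ _ => wP_nonneg E

theorem NF_Zf (x : ℝ) (Ω : Finset Pt) :
    NF x Ω f0 = Zf (fun E : Pg => x / 2 * wP E) (pg f0 Ω) := by
  rw [NF_eq_NUN, NF_eq_Zf]
  rfl

/-- **lower half**: the gas is at most the exponential of the total weight. -/
theorem NF_le_exp {x : ℝ} (hx : 0 ≤ x) (Ω : Finset Pt) : NF x Ω f0 ≤ Real.exp (x / 2 * WW Ω) := by
  rw [NF_Zf, ← sum_pg, Finset.mul_sum]
  exact Pool.Agent.NUA.exp_up (fun l => mul_nonneg (by linarith) (wP_nonneg l)) _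

/-- **upper half**: the total weight against the gas. -/
theorem WW_block : ∃ (s0 R : ℕ) (C0 : ℝ), 1 ≤ s0 ∧ 2 ≤ R ∧ 0 ≤ C0 ∧ ∀ (m n : ℕ) (δ : ℝ), 0 < δ →
    WW (HexObs.LP.PP (rad s0 R (m * n)) (rad s0 R (m * n))) ≤
      Real.log (NF (2 * δ) (HexObs.LP.PP (rad s0 R (m * n)) (rad s0 R (m * n))) f0) / δ + C0 * m +
        δ * (n * C0) ^ 2 * m / 2 := by
  obtain ⟨s0, R, c, hs0, hR, hc, hring'⟩ := ring_Ball
  have hring : ∀ (f : Pt), Fc f → ∀ i : ℕ, c ≤ ∑ E ∈ shell (BB f s0 R) i, wP E := fun f hf i => hring' f hf i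
  obtain ⟨C0, hC0, hcr⟩ := CrossC_of_TwoC PLD.twoC_all s0 R
  refine ⟨s0, R, C0, hs0, hR, hC0, fun m n δ hδ => ?_⟩
  have L := lev_hex (by omega) hring hC0 hcr Fc_f0 (m * n)
  have h := Pool.Agent.NUA.block L hδ
  have e1 : BB f0 s0 R (m * n) = pg f0 (HexObs.LP.PP (rad s0 R (m * n)) (rad s0 R (m * n))) := by
    unfold BB
    rw [Ball_f0]
  rw [e1, sum_pg] at h
  rw [NF_Zf, mul_div_cancel_left₀ δ (two_ne_zero' ℝ)]
  exact h

end NUA
end


/- part: Pool.Agent.NUA.W1Lim -/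
section
/-!
# The total weight of the polygons around a face is asymptotic to `log T / (3 π)` (both orientations)
-/

set_option autoImplicit false

open Filter Topology

namespace NUA

open NUI Pool.Agent.NUF HexObs HexObs.LP Pool.Agent.ZF

lemma hT_phi (φ : ℝ) : hT (Real.pi / 2 - φ) = cA * (Real.pi * φ - φ ^ 2) := by
  unfold hT
  ring

lemma cA_w0 : cA * Real.pi / 2 = 1 / (3 * Real.pi) := by
  unfold cA
  have := Real.pi_pos
  field_simp

lemma phi_low {φ : ℝ} (h0 : 0 < φ) (h1 : φ ≤ 1) :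
    Real.sin φ * (1 / (3 * Real.pi) - cA * φ / 2) ≤ hT (Real.pi / 2 - φ) / 2 := by
  have hs : Real.sin φ ≤ φ := Real.sin_le h0.le
  have hpi := Real.pi_gt_three
  have hc := cA_pos
  rw [hT_phi, ← cA_w0]
  have e1 : Real.sin φ * (cA * Real.pi / 2 - cA * φ / 2) = cA * (Real.pi - φ) / 2 * Real.sin φ := by ring
  have e2 : cA * (Real.pi * φ - φ ^ 2) / 2 = cA * (Real.pi - φ) / 2 * φ := by ring
  rw [e1, e2]
  apply mul_le_mul_of_nonneg_left hs
  have : 0 ≤ Real.pi - φ := by linarith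
  positivity

lemma phi_up {φ : ℝ} (h0 : 0 < φ) (h1 : φ ≤ 1) :
    hT (Real.pi / 2 - φ) / 2 ≤ Real.sin φ * (1 / (3 * Real.pi) + φ ^ 2) := by
  have hs : φ - φ ^ 3 / 4 < Real.sin φ := by
    have := Real.sin_gt_sub_cube h0
    have := pow_pos h0 3
    linarith
  have hpi := Real.pi_gt_three
  have hc := cA_pos
  have hw : 1 / (3 * Real.pi) ≤ 1 / 9 := by
    apply one_div_le_one_div_of_le (by norm_num)
    linarith
  have hw0 : 0 < 1 / (3 * Real.pi) := by positivity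
  rw [hT_phi]
  have e1 : cA * (Real.pi * φ - φ ^ 2) / 2 ≤ 1 / (3 * Real.pi) * φ := by
    rw [← cA_w0]
    have : 0 ≤ cA * φ ^ 2 / 2 := by positivity
    linarith
  refine e1.trans ?_
  have e2 : (φ - φ ^ 3 / 4) * (1 / (3 * Real.pi) + φ ^ 2) ≤ Real.sin φ * (1 / (3 * Real.pi) + φ ^ 2) :=
    mul_le_mul_of_nonneg_right hs.le (by positivity)
  refine le_trans ?_ e2
  have e3 : (φ - φ ^ 3 / 4) * (1 / (3 * Real.pi) + φ ^ 2) =
      1 / (3 * Real.pi) * φ + φ ^ 3 * (1 - 1 / (3 * Real.pi) / 4 - φ ^ 2 / 4) := by ring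
  rw [e3]
  have e4 : 0 ≤ 1 - 1 / (3 * Real.pi) / 4 - φ ^ 2 / 4 := by nlinarith
  have : 0 ≤ φ ^ 3 * (1 - 1 / (3 * Real.pi) / 4 - φ ^ 2 / 4) := by positivity
  linarith

lemma two_cos (φ : ℝ) : 2 * Real.cos (Real.pi / 2 - φ) = 2 * Real.sin φ := by
  rw [Real.cos_pi_div_two_sub]

/-- **The lower half.** -/
theorem WW_lower (h : Target) {η : ℝ} (hη : 0 < η) :
    ∀ᶠ T : ℕ in atTop, Real.log T * (1 / (3 * Real.pi) - η) ≤ WW (HexObs.LP.PP T T) := by
  have hpi := Real.pi_gt_three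
  have hc := cA_pos
  obtain ⟨φ, hφ0, hφ1, hφ2⟩ : ∃ φ : ℝ, 0 < φ ∧ φ ≤ 1 ∧ cA * φ ≤ η := by
    refine ⟨min 1 (η / cA), lt_min one_pos (by positivity), min_le_left _ _, ?_⟩
    calc cA * min 1 (η / cA) ≤ cA * (η / cA) := mul_le_mul_of_nonneg_left (min_le_right _ _) hc.le
      _ = η := by field_simp
  have hδ : 0 < Real.sin φ := Real.sin_pos_of_pos_of_lt_pi hφ0 (by linarith)
  have hNF := NF_low h (θ := Real.pi / 2 - φ) (by linarith) (by linarith) (ε := Real.sin φ * (η / 2))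
    (by positivity)
  filter_upwards [hNF, eventually_ge_atTop 1] with T hT1 hT2
  rw [two_cos] at hT1
  have hL : 0 ≤ Real.log T := Real.log_nonneg (by exact_mod_cast hT2)
  have h1 := hT1.trans (NF_le_exp (x := 2 * Real.sin φ) (by positivity) _)
  rw [Real.exp_le_exp, mul_div_cancel_left₀ _ (two_ne_zero' ℝ)] at h1
  have h2 := phi_low hφ0 hφ1
  have h3 : Real.sin φ * (Real.log T * (1 / (3 * Real.pi) - η)) ≤
      Real.log T * (hT (Real.pi / 2 - φ) / 2 - Real.sin φ * (η / 2)) := by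
    have e : Real.sin φ * (Real.log T * (1 / (3 * Real.pi) - η)) =
      Real.log T * (Real.sin φ * (1 / (3 * Real.pi) - η)) := by ring
    rw [e]
    apply mul_le_mul_of_nonneg_left _ hL
    have h4 : Real.sin φ * (cA * φ / 2) ≤ Real.sin φ * (η / 2) :=
      mul_le_mul_of_nonneg_left (by linarith) hδ.le
    have h5 : Real.sin φ * (1 / (3 * Real.pi) - η) =
      Real.sin φ * (1 / (3 * Real.pi) - cA * φ / 2) + Real.sin φ * (cA * φ / 2) - Real.sin φ * η := by ring
    rw [h5]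
    linarith
  exact le_of_mul_le_mul_left (h3.trans h1) hδ

/-- **The upper half.** -/
theorem WW_upper (h : Target) {η : ℝ} (hη : 0 < η) :
    ∀ᶠ T : ℕ in atTop, WW (HexObs.LP.PP T T) ≤ Real.log T * (1 / (3 * Real.pi) + η) := by
  have hpi := Real.pi_gt_three
  have hw0 : 0 < 1 / (3 * Real.pi) := by positivity
  obtain ⟨s0, R, C0, hs0, hR, hC0, hW⟩ := WW_block
  have hR0 : (0 : ℝ) < R := by exact_mod_cast (by omega : 0 < R)
  have hlR : 0 < Real.log R := Real.log_pos (by exact_mod_cast (by omega : 1 < R))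
  -- n
  obtain ⟨n, hn1, hn2⟩ : ∃ n : ℕ, 1 ≤ n ∧ C0 ≤ η / 4 * (n * Real.log R) := by
    obtain ⟨n, hn⟩ := exists_nat_ge (max 1 (C0 / (η / 4 * Real.log R)))
    refine ⟨n, by exact_mod_cast (le_max_left _ _).trans hn, ?_⟩
    have h1 := (le_max_right _ _).trans hn
    rw [div_le_iff₀ (by positivity)] at h1
    linarith
  have hn0 : (0 : ℝ) < n := by exact_mod_cast hn1
  -- φ
  obtain ⟨φ, hφ0, hφ1, hφ2, hφ3⟩ : ∃ φ : ℝ, 0 < φ ∧ φ ≤ 1 ∧ φ ^ 2 ≤ η / 8 ∧
      φ * (n * C0 ^ 2) ≤ η / 2 * Real.log R := by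
    refine ⟨min 1 (min (η / 8) (η / 2 * Real.log R / (n * C0 ^ 2 + 1))), ?_, min_le_left _ _, ?_, ?_⟩
    · exact lt_min one_pos (lt_min (by positivity) (by positivity))
    · have h1 : min 1 (min (η / 8) (η / 2 * Real.log R / (n * C0 ^ 2 + 1))) ≤ 1 := min_le_left _ _
      have h2 : min 1 (min (η / 8) (η / 2 * Real.log R / (n * C0 ^ 2 + 1))) ≤ η / 8 :=
        (min_le_right _ _).trans (min_le_left _ _)
      have h3 : 0 ≤ min 1 (min (η / 8) (η / 2 * Real.log R / (n * C0 ^ 2 + 1))) :=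
        le_min zero_le_one (le_min (by positivity) (by positivity))
      nlinarith
    · have h2 : min 1 (min (η / 8) (η / 2 * Real.log R / (n * C0 ^ 2 + 1))) ≤
          η / 2 * Real.log R / (n * C0 ^ 2 + 1) := (min_le_right _ _).trans (min_le_right _ _)
      have h3 : (0 : ℝ) ≤ n * C0 ^ 2 := by positivity
      have h4 : 0 ≤ min 1 (min (η / 8) (η / 2 * Real.log R / (n * C0 ^ 2 + 1))) :=
        le_min zero_le_one (le_min (by positivity) (by positivity))
      calc min 1 (min (η / 8) (η / 2 * Real.log R / (n * C0 ^ 2 + 1))) * (n * C0 ^ 2)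
          ≤ η / 2 * Real.log R / (n * C0 ^ 2 + 1) * (n * C0 ^ 2 + 1) :=
            mul_le_mul h2 (by linarith) h3 (by positivity)
        _ = _ := by field_simp
  obtain ⟨δ, hδd⟩ : ∃ δ : ℝ, δ = Real.sin φ := ⟨_, rfl⟩
  have hδ : 0 < δ := by rw [hδd]; exact Real.sin_pos_of_pos_of_lt_pi hφ0 (by linarith)
  have hδφ : δ ≤ φ := by rw [hδd]; exact Real.sin_le hφ0.le
  have hNF := NF_up h (θ := Real.pi / 2 - φ) (by linarith) (by linarith) (ε := δ * (η / 8))
    (by positivity)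
  rw [two_cos, ← hδd] at hNF
  obtain ⟨r0, hr0⟩ := eventually_atTop.1 hNF
  -- constants
  obtain ⟨K1, hK1⟩ : ∃ K1 : ℝ, K1 = Real.log (s0 * (R : ℝ) ^ n) := ⟨_, rfl⟩
  obtain ⟨K2, hK2⟩ : ∃ K2 : ℝ, K2 = (1 / n + 1) * (C0 + δ * (n * C0) ^ 2 / 2) := ⟨_, rfl⟩
  filter_upwards [eventually_ge_atTop (max 2 r0),
    log_ge ((K1 * (1 / (3 * Real.pi) + η / 4) + K2) * (4 / η))] with T hT1 hTL
  have hT2 : 2 ≤ T := (le_max_left _ _).trans hT1
  have hT3 : r0 ≤ T := (le_max_right _ _).trans hT1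
  have hT0 : (0 : ℝ) < T := by exact_mod_cast (by omega : 0 < T)
  have hTlog : 0 ≤ Real.log T := Real.log_nonneg (by exact_mod_cast (by omega : 1 ≤ T))
  obtain ⟨q, hq⟩ : ∃ q, q = Nat.clog R T := ⟨_, rfl⟩
  have hq1 : T ≤ R ^ q := by rw [hq]; exact Nat.le_pow_clog (by omega) _
  have hq0 : 1 ≤ q := by
    rw [hq]
    exact Nat.clog_pos (by omega) (by omega)
  have hq2 : R ^ (q - 1) < T := by
    rw [hq]
    exact Nat.pow_pred_clog_lt_self (by omega) (by omega)
  obtain ⟨m, hm⟩ : ∃ m, m = q / n + 1 := ⟨_, rfl⟩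
  have hmn : q + 1 ≤ m * n := by
    have h1 := Nat.lt_div_mul_add (a := q) (show 0 < n by omega)
    rw [hm, add_mul, one_mul]
    omega
  have hmn2 : m * n ≤ q + n := by
    rw [hm, add_mul, one_mul]
    have := Nat.div_mul_le_self q n
    omega
  obtain ⟨r, hr⟩ : ∃ r, r = rad s0 R (m * n) := ⟨_, rfl⟩
  have hr1 : r = s0 * R ^ (m * n - 1) := by
    rw [hr]
    obtain ⟨i, hi⟩ : ∃ i, m * n = i + 1 := ⟨m * n - 1, by omega⟩
    rw [hi]
    rfl
  have hTr : T ≤ r := by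
    rw [hr1]
    calc T ≤ R ^ q := hq1
      _ ≤ R ^ (m * n - 1) := Nat.pow_le_pow_right (by omega) (by omega)
      _ ≤ s0 * R ^ (m * n - 1) := Nat.le_mul_of_pos_left _ (by omega)
  have hr2 : (r : ℝ) ≤ T * (s0 * (R : ℝ) ^ n) := by
    have h1 : r ≤ T * (s0 * R ^ n) := by
      rw [hr1]
      calc s0 * R ^ (m * n - 1) ≤ s0 * R ^ ((q - 1) + n) :=
            Nat.mul_le_mul_left _ (Nat.pow_le_pow_right (by omega) (by omega))
        _ = R ^ (q - 1) * (s0 * R ^ n) := by rw [pow_add]; ring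
        _ ≤ T * (s0 * R ^ n) := Nat.mul_le_mul_right _ hq2.le
    exact_mod_cast h1
  have hr0' : (0 : ℝ) < r := by exact_mod_cast (by omega : 0 < r)
  have hs0R : (0 : ℝ) < s0 * (R : ℝ) ^ n := by
    have : (0 : ℝ) < s0 := by exact_mod_cast (by omega : 0 < s0)
    positivity
  have hlr : Real.log r ≤ Real.log T + K1 := by
    rw [hK1, ← Real.log_mul hT0.ne' hs0R.ne']
    exact Real.log_le_log hr0' hr2
  have hm1 : (m : ℝ) ≤ (Real.log T / Real.log R + 1) / n + 1 := by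
    have h1 : ((q : ℝ) - 1) * Real.log R ≤ Real.log T := by
      have h2 : (R : ℝ) ^ (q - 1) ≤ T := by exact_mod_cast hq2.le
      have h3 := Real.log_le_log (by positivity) h2
      rw [Real.log_pow, Nat.cast_sub hq0, Nat.cast_one] at h3
      exact h3
    have h2 : (q : ℝ) ≤ Real.log T / Real.log R + 1 := by
      have : (q : ℝ) - 1 ≤ Real.log T / Real.log R := by
        rw [le_div_iff₀ hlR]
        exact h1
      linarith
    have h3 : ((q / n : ℕ) : ℝ) ≤ (q : ℝ) / n := Nat.cast_div_le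
    rw [hm]
    push_cast
    have h4 : (q : ℝ) / n ≤ (Real.log T / Real.log R + 1) / n := by gcongr
    linarith
  -- the main estimate
  have h1 := hW m n δ hδ
  rw [← hr] at h1
  have h2 := hr0 r (hT3.trans hTr) r
  have hNF1 : (1 : ℝ) ≤ NF (2 * δ) (HexObs.LP.PP r r) f0 := one_le_NF (by positivity) _ _
  have h3 : Real.log (NF (2 * δ) (HexObs.LP.PP r r) f0) ≤ Real.log r * (hT (Real.pi / 2 - φ) / 2 + δ * (η / 8)) := by
    have := Real.log_le_log (by linarith) h2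
    rwa [Real.log_exp] at this
  have h4 := phi_up hφ0 hφ1
  rw [← hδd] at h4
  have hlr0 : 0 ≤ Real.log r := Real.log_nonneg (by exact_mod_cast (by omega : 1 ≤ r))
  have h5 : Real.log (NF (2 * δ) (HexObs.LP.PP r r) f0) / δ ≤ (Real.log T + K1) * (1 / (3 * Real.pi) + η / 4) := by
    rw [div_le_iff₀ hδ]
    refine h3.trans ?_
    have h6 : hT (Real.pi / 2 - φ) / 2 + δ * (η / 8) ≤ (1 / (3 * Real.pi) + η / 4) * δ := by
      have : δ * φ ^ 2 ≤ δ * (η / 8) := mul_le_mul_of_nonneg_left hφ2 hδ.le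
      linarith
    calc Real.log r * (hT (Real.pi / 2 - φ) / 2 + δ * (η / 8)) ≤
          Real.log r * ((1 / (3 * Real.pi) + η / 4) * δ) := mul_le_mul_of_nonneg_left h6 hlr0
      _ ≤ (Real.log T + K1) * ((1 / (3 * Real.pi) + η / 4) * δ) :=
          mul_le_mul_of_nonneg_right hlr (by positivity)
      _ = _ := by ring
  have hX : 0 ≤ C0 + δ * (n * C0) ^ 2 / 2 := by positivity
  have h7 : C0 * m + δ * (n * C0) ^ 2 * m / 2 ≤ Real.log T * (η / 2) + K2 := by
    have e1 : C0 * m + δ * (n * C0) ^ 2 * m / 2 = m * (C0 + δ * (n * C0) ^ 2 / 2) := by ring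
    rw [e1]
    refine (mul_le_mul_of_nonneg_right hm1 hX).trans ?_
    have e2 : ((Real.log T / Real.log R + 1) / n + 1) * (C0 + δ * (n * C0) ^ 2 / 2) =
        Real.log T * ((C0 + δ * (n * C0) ^ 2 / 2) / (n * Real.log R)) + K2 := by
      rw [hK2]
      field_simp
      ring
    rw [e2]
    have h8 : (C0 + δ * (n * C0) ^ 2 / 2) / (n * Real.log R) ≤ η / 2 := by
      rw [div_le_iff₀ (by positivity)]
      have h9 : δ * (n * C0 ^ 2) ≤ η / 2 * Real.log R :=
        (mul_le_mul_of_nonneg_right hδφ (by positivity)).trans hφ3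
      have h10 : δ * (n * C0) ^ 2 / 2 = (δ * (n * C0 ^ 2)) * n / 2 := by ring
      rw [h10]
      have h11 := mul_le_mul_of_nonneg_right h9 hn0.le
      linarith
    have := mul_le_mul_of_nonneg_left h8 hTlog
    linarith
  have h12 : WW (HexObs.LP.PP T T) ≤ WW (HexObs.LP.PP r r) := WW_mono (PP_mono hTr hTr)
  have h13 : (K1 * (1 / (3 * Real.pi) + η / 4) + K2) ≤ Real.log T * (η / 4) := by
    have h14 : (K1 * (1 / (3 * Real.pi) + η / 4) + K2) * (4 / η) * (η / 4) =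
      (K1 * (1 / (3 * Real.pi) + η / 4) + K2) := by
      field_simp
    have := mul_le_mul_of_nonneg_right hTL (by positivity : 0 ≤ η / 4)
    linarith
  have h15 : Real.log T * (1 / (3 * Real.pi) + η) = Real.log T * (1 / (3 * Real.pi) + η / 4) +
      Real.log T * (η / 2) + Real.log T * (η / 4) := by ring
  have h16 : (Real.log T + K1) * (1 / (3 * Real.pi) + η / 4) =
      Real.log T * (1 / (3 * Real.pi) + η / 4) + K1 * (1 / (3 * Real.pi) + η / 4) := by ring
  rw [h16] at h5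
  linarith

/-- **The total weight of the polygons around a face.** -/
theorem WW_lim (h : Target) :
    Tendsto (fun T : ℕ => WW (HexObs.LP.PP T T) / Real.log T) atTop (𝓝 (1 / (3 * Real.pi))) := by
  rw [Metric.tendsto_nhds]
  intro η hη
  filter_upwards [WW_lower h (half_pos hη), WW_upper h (half_pos hη), eventually_ge_atTop 2] with T h1 h2 hT
  have hL : 0 < Real.log T := Real.log_pos (by exact_mod_cast (by omega : 1 < T))
  rw [Real.dist_eq, abs_lt]
  constructor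
  · have : 1 / (3 * Real.pi) - η / 2 ≤ WW (HexObs.LP.PP T T) / Real.log T := by
      rw [le_div_iff₀ hL]
      linarith
    linarith
  · have : WW (HexObs.LP.PP T T) / Real.log T ≤ 1 / (3 * Real.pi) + η / 2 := by
      rw [div_le_iff₀ hL]
      linarith
    linarith

end NUA
end
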